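import Pool.Agent.H71.DM.Targets
import Pool.Agent.H71.DM.Basic

set_option autoImplicit false

/-!
Module CNT: counting patterns.
-/

namespace Pool.Agent.H14.DM

open Finset Pool.Agent.H71.DM

section Upd

variable {I X : Type} [Fintype I] [DecidableEq I] [Fintype X]

omit [Fintype X] in
theorem prodW_update (q : I → X → ℝ) (i : I) (x : I → X) (a : X) :
    prodW q x * q i a = prodW q (Function.update x i a) * q i (x i) := by
  unfold prodW
  rw [← Finset.mul_prod_erase univ (fun j => q j (x j)) (mem_univ i),
    ← Finset.mul_prod_erase univ (fun j => q j (Function.update x i a j)) (mem_univ i)]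
  rw [Function.update_self]
  have h : ∏ j ∈ univ.erase i, q j (Function.update x i a j) = ∏ j ∈ univ.erase i, q j (x j) := by
    refine Finset.prod_congr rfl fun j hj => ?_
    rw [Function.update_of_ne (Finset.ne_of_mem_erase hj)]
  rw [h]
  ring

/-- resampling one coordinate -/
theorem ex_update {q : I → X → ℝ} (hq : ∀ i, IsProb (q i)) (i : I) (F : (I → X) → ℝ) :
    ex (prodW q) (fun x => ex (q i) (fun a => F (Function.update x i a))) = ex (prodW q) F := by
  classical
  have h1 : ex (prodW q) (fun x => ex (q i) (fun a => F (Function.update x i a))) =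
      ∑ xa : (I → X) × X, prodW q xa.1 * q i xa.2 * F (Function.update xa.1 i xa.2) := by
    rw [Fintype.sum_prod_type]
    unfold ex
    refine Finset.sum_congr rfl fun x _ => ?_
    rw [Finset.mul_sum]
    exact Finset.sum_congr rfl fun a _ => by ring
  have h2 : ex (prodW q) F = ∑ xa : (I → X) × X, prodW q xa.1 * q i xa.2 * F xa.1 := by
    rw [Fintype.sum_prod_type]
    unfold ex
    refine Finset.sum_congr rfl fun x _ => ?_
    have : ∑ a, prodW q x * q i a * F x = (prodW q x * F x) * ∑ a, q i a := by
      rw [Finset.mul_sum]
      exact Finset.sum_congr rfl fun a _ => by ring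
    rw [this, (hq i).2, mul_one]
  rw [h1, h2]
  let φ : (I → X) × X → (I → X) × X := fun xa => (Function.update xa.1 i xa.2, xa.1 i)
  have hφ : Function.Involutive φ := by
    rintro ⟨x, a⟩
    simp [φ]
  refine Fintype.sum_equiv hφ.toPerm _ _ ?_
  rintro ⟨x, a⟩
  change prodW q x * q i a * F (Function.update x i a) =
    prodW q (Function.update x i a) * q i (x i) * F (Function.update x i a)
  rw [prodW_update]

theorem pr_coord {q : I → X → ℝ} (hq : ∀ i, IsProb (q i)) (i : I) (s : X) :
    pr (prodW q) (fun x => x i = s) = q i s := by
  unfold pr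
  rw [← ex_update hq i]
  simp only [Function.update_self]
  rw [ex_const (prodW_prob hq)]
  exact pr_eq _ _

end Upd

theorem cnt : CountStmt := by
  classical
  intro V _ _ adj has htot H p ν f θ ε s hν hf hθ0 hθ1 hε hsup hs hsq
  have hP := prodW_prob hν
  -- the factors
  let g : Fin p → V → ℝ := fun i a => if H i p then ind (adj a s) else 1 - ind (adj a s)
  let fh : Fin p → V → ℝ := fun i a => if H i p then f i a else 1 - f i a
  have hg0 : ∀ i a, 0 ≤ g i a := by
    intro i a
    simp only [g]
    split_ifs
    · exact ind_nonneg _
    · linarith [ind_le_one (adj a s)]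
  have hg1 : ∀ i a, g i a ≤ 1 := by
    intro i a
    simp only [g]
    split_ifs
    · exact ind_le_one _
    · linarith [ind_nonneg (adj a s)]
  have hfh : ∀ i a, ν i a ≠ 0 → θ ≤ fh i a := by
    intro i a ha
    simp only [fh]
    split_ifs with h
    · exact (hsup i a ha).1 h
    · linarith [(hsup i a ha).2 h]
  let P : ℕ → (Fin p → V) → ℝ := fun m x => ∏ i ∈ univ.filter (fun i : Fin p => (i : ℕ) < m), g i (x i)
  have hP0 : ∀ m x, 0 ≤ P m x := fun m x => Finset.prod_nonneg fun i _ => hg0 _ _
  have hP1 : ∀ m x, P m x ≤ 1 := fun m x => Finset.prod_le_one (fun i _ => hg0 _ _) fun i _ => hg1 _ _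
  have hPs : ∀ m (hm : m < p) x, P (m + 1) x = P m x * g ⟨m, hm⟩ (x ⟨m, hm⟩) := by
    intro m hm x
    simp only [P]
    have : univ.filter (fun i : Fin p => (i : ℕ) < m + 1) =
        insert (⟨m, hm⟩ : Fin p) (univ.filter (fun i : Fin p => (i : ℕ) < m)) := by
      ext i
      simp only [mem_filter, mem_univ, true_and, mem_insert, Fin.ext_iff]
      omega
    rw [this, Finset.prod_insert (by simp), mul_comm]
  have hPu : ∀ m (hm : m < p) x a, P m (Function.update x ⟨m, hm⟩ a) = P m x := by
    intro m hm x a
    simp only [P]
    refine Finset.prod_congr rfl fun i hi => ?_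
    rw [mem_filter] at hi
    rw [Function.update_of_ne]
    intro h
    rw [h] at hi
    exact lt_irrefl _ hi.2
  let A : ℕ → (Fin p → V) → ℝ := fun m x => ind (Pat adj H p x) * P m x
  have hA0 : ∀ m x, 0 ≤ A m x := fun m x => mul_nonneg (ind_nonneg _) (hP0 _ _)
  -- one step
  have step : ∀ m (hm : m < p), θ * ex (prodW ν) (A m) - ε ≤ ex (prodW ν) (A (m + 1)) := by
    intro m hm
    let i : Fin p := ⟨m, hm⟩
    have e1 : ex (prodW ν) (A (m + 1)) = ex (prodW ν) (fun x => A m x * fh i (x i)) +
        ex (prodW ν) (fun x => A m x * (g i (x i) - fh i (x i))) := by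
      rw [← ex_add]
      refine ex_congr fun x _ => ?_
      simp only [A]
      rw [hPs m hm x]
      ring
    have e2 : θ * ex (prodW ν) (A m) ≤ ex (prodW ν) (fun x => A m x * fh i (x i)) := by
      rw [← ex_mul_left]
      refine ex_mono hP.1 fun x hx => ?_
      rw [mul_comm]
      exact mul_le_mul_of_nonneg_left (hfh i (x i) (ne_zero_of_prodW hx i)) (hA0 m x)
    let D : (Fin p → V) → ℝ := fun x => ex (ν i) (fun a =>
        ind (Pat adj H p (Function.update x i a)) * (ind (adj a s) - f i a))
    have e3 : ex (prodW ν) (fun x => A m x * (g i (x i) - fh i (x i))) =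
        ex (prodW ν) (fun x => P m x * (if H i p then D x else - D x)) := by
      rw [← ex_update hν i]
      refine ex_congr fun x _ => ?_
      have : ∀ a, A m (Function.update x i a) * (g i (Function.update x i a i) -
          fh i (Function.update x i a i)) = P m x * ((if H i p then (1:ℝ) else -1) *
          (ind (Pat adj H p (Function.update x i a)) * (ind (adj a s) - f i a))) := by
        intro a
        simp only [A, Function.update_self, g, fh]
        rw [hPu m hm x a]
        split_ifs <;> ring
      simp only [this]
      rw [ex_mul_left, ex_mul_left]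
      split_ifs <;> simp [D]
    have e4 : ex (prodW ν) (fun x => |D x|) ≤ ε := by
      have h1 := sq_ex_le (f := fun x => |D x|) hP
      have h2 : ex (prodW ν) (fun x => |D x| ^ 2) ≤ ε ^ 2 := by
        simp only [sq_abs]
        exact hsq i
      exact le_of_sq_le_sq (h1.trans h2) hε
    have e5 : - ε ≤ ex (prodW ν) (fun x => P m x * (if H i p then D x else - D x)) := by
      have h1 : |ex (prodW ν) (fun x => P m x * (if H i p then D x else - D x))| ≤ ε := by
        refine (abs_ex_le hP.1).trans ((ex_mono' hP.1 fun x => ?_).trans e4)
        rw [abs_mul, abs_of_nonneg (hP0 m x)]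
        have h3 : |if H i p then D x else - D x| = |D x| := by
          split_ifs
          · rfl
          · exact abs_neg _
        rw [h3]
        have := mul_le_mul_of_nonneg_right (hP1 m x) (abs_nonneg (D x))
        linarith
      exact (abs_le.mp h1).1
    rw [e1, e3]
    linarith
  have ind1 : ∀ m, m ≤ p → θ ^ m * ex (prodW ν) (A 0) - m * ε ≤ ex (prodW ν) (A m) := by
    intro m
    induction m with
    | zero => intro _; simp
    | succ m ih =>
      intro hm
      have h1 := ih (by omega)
      have h2 := step m (by omega)
      have h3 := mul_le_mul_of_nonneg_left h1 hθ0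
      have h4 : θ * ((m : ℝ) * ε) ≤ m * ε := by
        have : 0 ≤ (m : ℝ) * ε := by positivity
        have h5 := mul_le_mul_of_nonneg_right hθ1 this
        linarith
      rw [pow_succ]
      push_cast
      nlinarith
  have hA00 : ex (prodW ν) (A 0) = pr (prodW ν) (Pat adj H p) := by
    unfold pr
    refine ex_congr fun x _ => ?_
    simp [A, P]
  have fin1 : ex (prodW ν) (A p) ≤ pr (prodW ν) (fun x => Pat adj H p x ∧
      ∀ i : Fin p, (H i p → adj (x i) s) ∧ (¬ H i p → adj s (x i))) + p * ε := by
    have h1 : ex (prodW ν) (A p) ≤ ex (prodW ν) (fun x => ind (Pat adj H p x ∧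
      ∀ i : Fin p, (H i p → adj (x i) s) ∧ (¬ H i p → adj s (x i))) +
        ∑ i : Fin p, ind (x i = s)) := by
      refine ex_mono' hP.1 fun x => ?_
      by_cases hs' : ∃ i, x i = s
      · obtain ⟨i, hi⟩ := hs'
        have h2 := Finset.single_le_sum (f := fun i => ind (x i = s)) (fun j _ => ind_nonneg _)
          (Finset.mem_univ i)
        simp only [ind_true hi] at h2
        have h3 : A p x ≤ 1 := by
          simp only [A]
          exact mul_le_one₀ (ind_le_one _) (hP0 _ _) (hP1 _ _)
        have h4 := ind_nonneg (Pat adj H p x ∧
          ∀ i : Fin p, (H i p → adj (x i) s) ∧ (¬ H i p → adj s (x i)))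
        linarith
      · push Not at hs'
        have h2 : 0 ≤ ∑ i : Fin p, ind (x i = s) := Finset.sum_nonneg fun i _ => ind_nonneg _
        by_cases hpat : Pat adj H p x ∧
          ∀ i : Fin p, (H i p → adj (x i) s) ∧ (¬ H i p → adj s (x i))
        · rw [ind_true hpat]
          have h3 : A p x ≤ 1 := by
            simp only [A]
            exact mul_le_one₀ (ind_le_one _) (hP0 _ _) (hP1 _ _)
          linarith
        · rw [ind_false hpat]
          have h3 : A p x = 0 := by
            simp only [A]
            by_cases hq : Pat adj H p x
            · have : ∃ i : Fin p, g i (x i) = 0 := by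
                by_contra hcon
                push Not at hcon
                apply hpat
                refine ⟨hq, fun i => ⟨fun hH => ?_, fun hH => ?_⟩⟩
                · by_contra h0
                  apply hcon i
                  simp only [g]
                  rw [if_pos hH, ind_false h0]
                · by_contra h0
                  apply hcon i
                  simp only [g]
                  have : adj (x i) s := by
                    rcases htot (x i) s (hs' i) with h | h
                    · exact h
                    · exact absurd h h0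
                  rw [if_neg hH, ind_true this]
                  ring
              obtain ⟨i, hi⟩ := this
              have : P p x = 0 := by
                simp only [P]
                refine Finset.prod_eq_zero (i := i) ?_ hi
                simp
              rw [this, mul_zero]
            · rw [ind_false hq, zero_mul]
          rw [h3]
          linarith
    rw [ex_add, ex_sum] at h1
    have h2 : ∑ i : Fin p, ex (prodW ν) (fun x => ind (x i = s)) ≤ p * ε := by
      have h3 : ∀ i : Fin p, ex (prodW ν) (fun x => ind (x i = s)) ≤ ε := by
        intro i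
        have := pr_coord hν i s
        unfold pr at this
        rw [this]
        exact hs i
      calc ∑ i : Fin p, ex (prodW ν) (fun x => ind (x i = s)) ≤ ∑ _i : Fin p, ε :=
            Finset.sum_le_sum fun i _ => h3 i
        _ = p * ε := by simp
    unfold pr
    linarith
  have h1 := ind1 p le_rfl
  rw [hA00] at h1
  linarith

end Pool.Agent.H14.DM
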