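import Pool.Agent.H14.DM.UDC

set_option autoImplicit false

/-!
Module REG: stable regions.
-/

namespace Pool.Agent.H14.DM

open Finset Pool.Agent.H71.DM

section Reg

variable {V : Type} [Fintype V]

theorem removable_mono {adj : V → V → Prop} {w : V → ℝ} {R R' : Set V} {δ θ : ℝ} {k k' : ℕ}
    {Y : Finset V} (h : Removable adj w R δ θ k Y) (hk : k ≤ k') (hR : R' ⊆ R) :
    Removable adj w R' δ θ k' Y := by
  refine ⟨h.1, ?_⟩
  rcases h.2 with h2 | h2
  · left
    intro hK
    exact h2 (hK.mono hk fun s hs => ⟨hR hs.1, hs.2⟩)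
  · right
    intro hK
    exact h2 (hK.mono hk fun s hs => ⟨hR hs.1, hs.2⟩)

theorem sum_mass_nonneg {w : V → ℝ} (hw : IsProb w) (F : Finset (Finset V)) :
    0 ≤ ∑ Y ∈ F, pr w (fun a => a ∈ Y) :=
  Finset.sum_nonneg fun _ _ => pr_nonneg hw.1 _

end Reg

theorem reg (hNM : NearMaxStmt) (hPig : PigUStmt) (hUDC : UDCritStmt) : RegionStmt := by
  classical
  intro G B T γ τ ε β θ τ₁ hγ hθ hθε hβ hτ₁ hτ hNoUD S R u hS hST hR hRT hker hhit δ η hδ hη
  -- notation
  let μ : ∀ n, B.C → (B.I → B.X n) → G.V n → ℝ := fun n c x =>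
    mean (B.q n) (B.b n) (u n) (B.E c) x
  have hμ : ∀ n c x, IsProb (μ n c x) := fun n c x =>
    mean_prob (B.hq n) (B.b n) (hker.1 n) (B.E c) x
  have hμdep : ∀ n c, DepOn (B.E c) (μ n c) := fun n c => depOn_mean _ _ _ _
  have hP : ∀ n, IsProb (prodW (B.q n)) := fun n => prodW_prob (B.hq n)
  let Fam : Type := ∀ n, B.C → (B.I → B.X n) → Finset (Finset (G.V n))
  let α : Type := (∀ n, Set (G.V n)) × ℕ × Fam
  let A : α → Prop := fun st => Rich G st.1 ∧ Sub G st.1 R ∧
    (∀ n c, DepOn (B.E c) (st.2.2 n c)) ∧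
    (∀ n c x, ((st.2.2 n c x : Finset (Finset (G.V n))) : Set (Finset (G.V n))).PairwiseDisjoint
      id) ∧
    (∀ n c x, ∀ Y ∈ st.2.2 n c x, Removable (G.adj n) (μ n c x) (st.1 n) δ θ st.2.1 Y)
  let le : α → α → Prop := fun z y => Sub G z.1 y.1 ∧ y.2.1 ≤ z.2.1 ∧
    ∀ n c x, y.2.2 n c x ⊆ z.2.2 n c x
  let M : ∀ n, B.C → (B.C → (B.I → B.X n) → Finset (Finset (G.V n))) → ℝ := fun n c F =>
    ex (prodW (B.q n)) (fun x => ∑ Y ∈ F c x, pr (μ n c x) (fun a => a ∈ Y))
  let Ψ : ℕ → α → ℝ := fun n st => (1 / (Fintype.card B.C : ℝ)) * ∑ c, M n c (st.2.2 n)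
  have hC0 : 0 < (Fintype.card B.C : ℝ) := by exact_mod_cast Fintype.card_pos
  have hM0 : ∀ n c F, 0 ≤ M n c F := fun n c F =>
    ex_nonneg (hP n).1 fun x => sum_mass_nonneg (hμ n c x) _
  have hΨ : ∀ st, A st → ∀ᶠ n in UU, 0 ≤ Ψ n st ∧ Ψ n st ≤ 1 := by
    intro st hst
    refine Filter.Eventually.of_forall fun n => ⟨?_, ?_⟩
    · exact mul_nonneg (by positivity) (Finset.sum_nonneg fun c _ => hM0 n c _)
    · have h1 : ∑ c, M n c (st.2.2 n) ≤ Fintype.card B.C := by
        calc ∑ c, M n c (st.2.2 n) ≤ ∑ _c : B.C, (1:ℝ) := by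
              refine Finset.sum_le_sum fun c _ => ?_
              exact ex_le (hP n) fun x _ => sum_mass_le_one (hμ n c x) _ (hst.2.2.2.1 n c x)
          _ = _ := by simp
      calc Ψ n st = (1 / (Fintype.card B.C : ℝ)) * ∑ c, M n c (st.2.2 n) := rfl
        _ ≤ (1 / (Fintype.card B.C : ℝ)) * Fintype.card B.C :=
            mul_le_mul_of_nonneg_left h1 (by positivity)
        _ = 1 := by field_simp
  let x₀ : α := (R, 0, fun _ _ _ => ∅)
  have hx₀ : A x₀ := by
    refine ⟨hR, Sub.refl R, fun n c => fun _ _ _ => rfl, fun n c x => ?_, fun n c x Y hY => ?_⟩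
    · simp [x₀]
    · simp [x₀] at hY
  have hη' : 0 < η * δ / Fintype.card B.C := by positivity
  obtain ⟨y, hAy, -, hmax⟩ := hNM α A le
    (fun x => ⟨Sub.refl _, le_rfl, fun _ _ _ => subset_rfl⟩)
    (fun x y z h1 h2 => ⟨h1.1.trans h2.1, h2.2.1.trans h1.2.1,
      fun n c x => (h2.2.2 n c x).trans (h1.2.2 n c x)⟩) Ψ hΨ (η * δ / Fintype.card B.C) hη' x₀ hx₀
  obtain ⟨R', k, F⟩ := y
  obtain ⟨hR', hR'R, hFdep, hFdis, hFrem⟩ := hAy
  simp only at hR' hR'R hFdep hFdis hFrem
  -- a class with a large remainder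
  have hlarge : ∀ᶠ n in UU, ∃ c, β < ex (prodW (B.q n))
      (fun x => pr (μ n c x) (fun a => ∀ Y ∈ F n c x, a ∉ Y)) := by
    obtain ⟨m, hm⟩ := exists_nat_ge (1 / δ)
    obtain ⟨m', hm'⟩ := exists_nat_ge (1 / θ)
    have hm1 : 1 ≤ δ * m := by
      rw [div_le_iff₀ hδ] at hm
      linarith
    have hm2 : 1 ≤ θ * m' := by
      rw [div_le_iff₀ hθ] at hm'
      linarith
    have h1 := hNoUD S R' u hS hR' hST (hR'R.trans hRT) hker (k * m)
    filter_upwards [h1, hhit, hR' (k * m + m')] with n h2 h3 h4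
    by_contra hcon
    push Not at hcon
    apply h2
    refine hUDC (G.V n) (G.adj n) (G.asymm n) B.I (B.X n) B.C (B.q n) (B.hq n) (B.b n) (u n)
      (hker.1 n) B.E γ τ ε β θ δ τ₁ k m m' (R' n) (F n) hγ hθ hθε hδ hm1 hm2 hτ h4 (hFdep n)
      (hFdis n) (hFrem n) ?_ hcon
    refine h3.trans (pr_mono' (hP n).1 fun x hx s hs => hx s (hR'R n hs))
  obtain ⟨c, hc⟩ := hPig B.C _ hlarge
  refine ⟨R', c, fun n x => {a | ∀ Y ∈ F n c x, a ∉ Y}, hR', hR'R, ?_, ?_, ?_⟩
  · intro n x x' hxx
    simp only
    rw [hFdep n c x x' hxx]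
  · filter_upwards [hc] with n hn
    exact hn.le
  · intro R'' hR'' hR''R' k₂
    let N : ∀ n, (B.I → B.X n) → Set (G.V n) := fun n x => {a | ∀ Y ∈ F n c x, a ∉ Y}
    have hNdep : ∀ n, DepOn (B.E c) (N n) := by
      intro n x x' hxx
      simp only [N]
      rw [hFdep n c x x' hxx]
    have hpick : ∀ n (w : G.V n → ℝ) (N : Set (G.V n)), ∃ Y : Finset (G.V n),
        BadAt (G.adj n) w N (R'' n) δ θ k₂ →
          (∀ a ∈ Y, a ∈ N) ∧ Removable (G.adj n) w (R'' n) δ θ k₂ Y := by
      intro n w N
      by_cases h : BadAt (G.adj n) w N (R'' n) δ θ k₂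
      · obtain ⟨Y, hY⟩ := h
        exact ⟨Y, fun _ => hY⟩
      · exact ⟨∅, fun h' => absurd h' h⟩
    choose pk hpk using hpick
    let Bad : ∀ n, (B.I → B.X n) → Prop := fun n x =>
      BadAt (G.adj n) (μ n c x) (N n x) (R'' n) δ θ k₂
    let F' : Fam := fun n c' x =>
      if c' = c ∧ Bad n x then insert (pk n (μ n c x) (N n x)) (F n c' x) else F n c' x
    have hF'sub : ∀ n c' x, F n c' x ⊆ F' n c' x := by
      intro n c' x
      simp only [F']
      split_ifs
      · exact Finset.subset_insert _ _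
      · exact subset_rfl
    have hdisj : ∀ n x, Bad n x → ∀ Y ∈ F n c x, Disjoint (pk n (μ n c x) (N n x)) Y := by
      intro n x hx Y hY
      rw [Finset.disjoint_left]
      intro a ha
      exact (hpk n _ _ hx).1 a ha Y hY
    have hnotmem : ∀ n x, Bad n x → pk n (μ n c x) (N n x) ∉ F n c x := by
      intro n x hx hmem
      have h1 := hdisj n x hx _ hmem
      rw [disjoint_self, Finset.bot_eq_empty] at h1
      have h2 := (hpk n _ _ hx).2.1
      rw [h1] at h2
      have h3 : pr (μ n c x) (fun a => a ∈ (∅ : Finset (G.V n))) = 0 := by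
        rw [← pr_false (μ n c x)]
        exact pr_congr fun a _ => by simp
      rw [h3] at h2
      linarith
    let z : α := (R'', max k k₂, F')
    have hAz : A z := by
      refine ⟨hR'', hR''R'.trans hR'R, ?_, ?_, ?_⟩
      · intro n c' x x' hxx
        simp only [z, F']
        by_cases hcc : c' = c
        · subst hcc
          have e1 : μ n c' x = μ n c' x' := hμdep n c' x x' hxx
          have e2 : N n x = N n x' := hNdep n x x' hxx
          have e3 : Bad n x = Bad n x' := by
            simp only [Bad]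
            rw [e1, e2]
          have e4 : F n c' x = F n c' x' := hFdep n c' x x' hxx
          rw [e1, e2, e3, e4]
        · simp only [hcc, false_and, if_false]
          exact hFdep n c' x x' hxx
      · intro n c' x
        simp only [z, F']
        split_ifs with h
        · obtain ⟨hcc, hb⟩ := h
          subst hcc
          rw [Finset.coe_insert]
          refine (hFdis n c' x).insert fun Y hY _ => ?_
          exact hdisj n x hb Y hY
        · exact hFdis n c' x
      · intro n c' x Y hY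
        simp only [z, F'] at hY
        split_ifs at hY with h
        · obtain ⟨hcc, hb⟩ := h
          subst hcc
          rw [Finset.mem_insert] at hY
          rcases hY with hY | hY
          · rw [hY]
            exact removable_mono (hpk n _ _ hb).2 (le_max_right _ _) subset_rfl
          · exact removable_mono (hFrem n c' x Y hY) (le_max_left _ _) (hR''R' n)
        · exact removable_mono (hFrem n c' x Y hY) (le_max_left _ _) (hR''R' n)
    have hle : le z (R', k, F) := ⟨hR''R', le_max_left _ _, hF'sub⟩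
    have hgain := hmax z hAz hle
    filter_upwards [hgain] with n hn
    have hM : ∀ c', M n c' (F n) + (if c' = c then δ * pr (prodW (B.q n)) (Bad n) else 0) ≤
        M n c' (F' n) := by
      intro c'
      by_cases hcc : c' = c
      · subst hcc
        rw [if_pos rfl]
        simp only [M]
        unfold pr
        rw [← ex_mul_left, ← ex_add]
        refine ex_mono' (hP n).1 fun x => ?_
        by_cases hb : Bad n x
        · rw [ind_true hb]
          have : F' n c' x = insert (pk n (μ n c' x) (N n x)) (F n c' x) :=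
            if_pos ⟨rfl, hb⟩
          rw [this, Finset.sum_insert (hnotmem n x hb)]
          have h1 := (hpk n _ _ hb).2.1
          unfold pr at h1
          linarith
        · rw [ind_false hb]
          have : F' n c' x = F n c' x := by
            simp only [F']
            rw [if_neg (fun h => hb h.2)]
          rw [this]
          linarith
      · rw [if_neg hcc, add_zero]
        have : ∀ x, F' n c' x = F n c' x := by
          intro x
          simp only [F']
          rw [if_neg (fun h => hcc h.1)]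
        simp only [M, this]
        exact le_rfl
    have hsum := Finset.sum_le_sum fun c' (_ : c' ∈ (univ : Finset B.C)) => hM c'
    rw [Finset.sum_add_distrib, Finset.sum_ite_eq' univ c, if_pos (mem_univ c)] at hsum
    have h1 : (1 / (Fintype.card B.C : ℝ)) * ∑ c', M n c' (F' n) ≤
        (1 / (Fintype.card B.C : ℝ)) * ∑ c', M n c' (F n) + η * δ / Fintype.card B.C := hn
    have h2 : ∑ c', M n c' (F' n) ≤ ∑ c', M n c' (F n) + η * δ := by
      have h3 := mul_le_mul_of_nonneg_left h1 hC0.le
      have e1 : (Fintype.card B.C : ℝ) * ((1 / (Fintype.card B.C : ℝ)) * ∑ c', M n c' (F' n)) =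
          ∑ c', M n c' (F' n) := by field_simp
      have e2 : (Fintype.card B.C : ℝ) * ((1 / (Fintype.card B.C : ℝ)) * ∑ c', M n c' (F n) +
          η * δ / Fintype.card B.C) = ∑ c', M n c' (F n) + η * δ := by field_simp
      rw [e1, e2] at h3
      exact h3
    have h4 : δ * pr (prodW (B.q n)) (Bad n) ≤ δ * η := by linarith
    exact le_of_mul_le_mul_left h4 hδ

end Pool.Agent.H14.DM
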