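import Pool.Agent.H71.DM.Targets
import Pool.Agent.H71.DM.Basic

set_option autoImplicit false

/-!
Module UDC: small remainders give the uniform description.
-/

namespace Pool.Agent.H14.DM

open Finset Pool.Agent.H71.DM

section UDC

variable {V : Type} [Fintype V]

theorem ind_exists_le {ι : Type*} (F : Finset ι) (P : ι → Prop) :
    ind (∃ Y ∈ F, P Y) ≤ ∑ Y ∈ F, ind (P Y) := by
  by_cases h : ∃ Y ∈ F, P Y
  · obtain ⟨Y, hY, hP⟩ := h
    rw [ind_true ⟨Y, hY, hP⟩]
    have h1 := Finset.single_le_sum (f := fun Y => ind (P Y)) (fun j _ => ind_nonneg _) hY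
    simpa [ind_true hP] using h1
  · rw [ind_false h]
    exact Finset.sum_nonneg fun i _ => ind_nonneg _

theorem pr_exists_mem_le {ι : Type*} {w : V → ℝ} (hw : ∀ a, 0 ≤ w a) (F : Finset ι)
    (P : ι → V → Prop) : pr w (fun a => ∃ Y ∈ F, P Y a) ≤ ∑ Y ∈ F, pr w (P Y) := by
  unfold pr
  rw [← ex_sum]
  exact ex_mono' hw fun a => ind_exists_le F _

/-- the total mass of disjoint sets -/
theorem sum_mass_le_one {w : V → ℝ} (hw : IsProb w) (F : Finset (Finset V))
    (hF : (F : Set (Finset V)).PairwiseDisjoint id) :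
    ∑ Y ∈ F, pr w (fun a => a ∈ Y) ≤ 1 := by
  unfold pr
  rw [← ex_sum]
  refine ex_le hw fun a _ => ?_
  by_cases h : ∃ Y ∈ F, a ∈ Y
  · obtain ⟨Y, hY, ha⟩ := h
    rw [Finset.sum_eq_single Y]
    · exact ind_le_one _
    · intro Y' hY' hne
      refine ind_false fun ha' => ?_
      exact Finset.disjoint_left.mp (hF hY' hY hne) ha' ha
    · intro h; exact absurd hY h
  · push Not at h
    rw [Finset.sum_eq_zero fun Y hY => ind_false (h Y hY)]
    exact zero_le_one

theorem sum_mass_filter_le_one {w : V → ℝ} (hw : IsProb w) (F : Finset (Finset V))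
    (hF : (F : Set (Finset V)).PairwiseDisjoint id) (p : Finset V → Prop) [DecidablePred p] :
    ∑ Y ∈ F.filter p, pr w (fun a => a ∈ Y) ≤ 1 :=
  sum_mass_le_one hw _ (hF.subset (by
    intro Y hY
    exact (Finset.mem_filter.mp hY).1))

end UDC

theorem udc (hres : ResampleStmt) : UDCritStmt := by
  classical
  intro V _ _ adj has I X C _ _ _ _ q hq b u hu E γ τ ε β θ δ τ₁ k m m' R F hγ hθ hθε hδ hm hm' hτ
    hR hFdep hFdis hFrem hhit hrem
  have hP := prodW_prob hq
  -- the mean laws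
  let μ : C → (I → X) → V → ℝ := fun c x => mean q b u (E c) x
  have hμ : ∀ c x, IsProb (μ c x) := fun c x => mean_prob hq b hu (E c) x
  have hμdep : ∀ c, DepOn (E c) (μ c) := fun c => depOn_mean q b u (E c)
  let Hs : (V → ℝ) → Finset V → Set V := fun w Y =>
    {s | s ∈ R ∧ θ * pr w (fun a => a ∈ Y) < pr w (fun a => a ∈ Y ∧ ¬ adj a s)}
  let Bs : (V → ℝ) → Finset V → Set V := fun w Y =>
    {s | s ∈ R ∧ θ * pr w (fun a => a ∈ Y) < pr w (fun a => a ∈ Y ∧ adj a s)}
  let isH : (V → ℝ) → Finset V → Prop := fun w Y => ¬ KRich adj k (Hs w Y)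
  have hDD : ∀ (w : V → ℝ) (Y : Finset V), ∃ D : Finset V, D.card ≤ k ∧
      (isH w Y → ∀ s ∈ R, (∀ d ∈ D, adj s d) →
        pr w (fun a => a ∈ Y ∧ ¬ adj a s) ≤ θ * pr w (fun a => a ∈ Y)) ∧
      (¬ isH w Y → ¬ KRich adj k (Bs w Y) → ∀ s ∈ R, (∀ d ∈ D, adj s d) →
        pr w (fun a => a ∈ Y ∧ adj a s) ≤ θ * pr w (fun a => a ∈ Y)) := by
    intro w Y
    by_cases h : isH w Y
    · obtain ⟨D, hD, hd⟩ := not_krich.mp h
      refine ⟨D, hD, fun _ s hs hsd => ?_, fun h' => absurd h h'⟩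
      by_contra hcon
      push Not at hcon
      obtain ⟨d, hdD, hdd⟩ := hd s ⟨hs, hcon⟩
      exact hdd (hsd d hdD)
    · by_cases h2 : KRich adj k (Bs w Y)
      · exact ⟨∅, by simp, fun h' => absurd h' h, fun _ h' => absurd h2 h'⟩
      · obtain ⟨D, hD, hd⟩ := not_krich.mp h2
        refine ⟨D, hD, fun h' => absurd h' h, fun _ _ s hs hsd => ?_⟩
        by_contra hcon
        push Not at hcon
        obtain ⟨d, hdD, hdd⟩ := hd s ⟨hs, hcon⟩
        exact hdd (hsd d hdD)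
  choose DD hDcard hDH hDB using hDD
  let Z : C → (I → X) → Set V := fun c x => {a | ∃ Y ∈ F c x, isH (μ c x) Y ∧ a ∈ Y}
  let W : C → (I → X) → Finset V := fun c x => (F c x).biUnion (DD (μ c x))
  have hFcard : ∀ c x, (F c x).card ≤ m := by
    intro c x
    have h1 := sum_mass_le_one (hμ c x) (F c x) (hFdis c x)
    have h2 : ((F c x).card : ℝ) * δ ≤ ∑ Y ∈ F c x, pr (μ c x) (fun a => a ∈ Y) := by
      calc ((F c x).card : ℝ) * δ = ∑ _Y ∈ F c x, δ := by rw [Finset.sum_const, nsmul_eq_mul]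
        _ ≤ _ := Finset.sum_le_sum fun Y hY => (hFrem c x Y hY).1
    have h3 : ((F c x).card : ℝ) * δ ≤ m * δ := by linarith
    exact_mod_cast le_of_mul_le_mul_right h3 hδ
  have hWcard : ∀ c x, (W c x).card ≤ k * m := by
    intro c x
    calc (W c x).card ≤ ∑ Y ∈ F c x, (DD (μ c x) Y).card := Finset.card_biUnion_le
      _ ≤ ∑ _Y ∈ F c x, k := Finset.sum_le_sum fun Y _ => hDcard _ _
      _ = (F c x).card * k := by rw [Finset.sum_const, smul_eq_mul]
      _ ≤ m * k := Nat.mul_le_mul_right _ (hFcard c x)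
      _ = k * m := Nat.mul_comm _ _
  have hZdep : ∀ c, DepOn (E c) (Z c) := by
    intro c x y hxy
    simp only [Z]
    rw [hFdep c x y hxy, hμdep c x y hxy]
  have hWdep : ∀ c, DepOn (E c) (W c) := by
    intro c x y hxy
    simp only [W]
    rw [hFdep c x y hxy, hμdep c x y hxy]
  have hWmem : ∀ c x s, (∀ w ∈ W c x, adj s w) → ∀ Y ∈ F c x, ∀ d ∈ DD (μ c x) Y, adj s d := by
    intro c x s hs Y hY d hd
    exact hs d (Finset.mem_biUnion.mpr ⟨Y, hY, hd⟩)
  have hi : ∀ c x, ∀ s ∈ R, (∀ w ∈ W c x, adj s w) →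
      pr (μ c x) (fun a => a ∈ Z c x ∧ ¬ adj a s) ≤ ε := by
    intro c x s hs hsW
    have h1 : pr (μ c x) (fun a => a ∈ Z c x ∧ ¬ adj a s) ≤
        pr (μ c x) (fun a => ∃ Y ∈ (F c x).filter (isH (μ c x)), a ∈ Y ∧ ¬ adj a s) := by
      refine pr_mono' (hμ c x).1 fun a ha => ?_
      obtain ⟨⟨Y, hY, hYH, haY⟩, hna⟩ := ha
      exact ⟨Y, Finset.mem_filter.mpr ⟨hY, hYH⟩, haY, hna⟩
    have h2 := pr_exists_mem_le (hμ c x).1 ((F c x).filter (isH (μ c x)))
      (fun Y a => a ∈ Y ∧ ¬ adj a s)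
    have h3 : ∑ Y ∈ (F c x).filter (isH (μ c x)), pr (μ c x) (fun a => a ∈ Y ∧ ¬ adj a s) ≤
        ∑ Y ∈ (F c x).filter (isH (μ c x)), θ * pr (μ c x) (fun a => a ∈ Y) := by
      refine Finset.sum_le_sum fun Y hY => ?_
      rw [Finset.mem_filter] at hY
      exact hDH (μ c x) Y hY.2 s hs (hWmem c x s hsW Y hY.1)
    rw [← Finset.mul_sum] at h3
    have h4 := mul_le_mul_of_nonneg_left
      (sum_mass_filter_le_one (hμ c x) (F c x) (hFdis c x) (isH (μ c x))) hθ.le
    linarith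
  -- the choice of the target
  let At : (V → ℝ) → Finset V := fun w => univ.filter (fun a => θ ≤ w a)
  have hAt : ∀ w, IsProb w → (At w).card ≤ m' := by
    intro w hw
    have h1 := card_atoms hw (θ := θ) (At w) (fun a ha => (Finset.mem_filter.mp ha).2)
    have h3 : ((At w).card : ℝ) * θ ≤ m' * θ := by linarith
    exact_mod_cast le_of_mul_le_mul_right h3 hθ
  obtain ⟨s0, hs0⟩ := hR.nonempty
  have hpick : ∀ D : Finset V, ∃ s : V, s ∈ R ∧ (D.card ≤ k * m + m' → ∀ d ∈ D, adj s d) := by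
    intro D
    by_cases h : D.card ≤ k * m + m'
    · obtain ⟨s, hs, hd⟩ := hR D h
      exact ⟨s, hs, fun _ => hd⟩
    · exact ⟨s0, hs0, fun h' => absurd h' h⟩
  choose pk hpkR hpkD using hpick
  let sc : C → (I → X) → V := fun c x => pk (W c x ∪ At (μ c x))
  have hscdep : ∀ c, DepOn (E c) (sc c) := by
    intro c x y hxy
    simp only [sc]
    rw [hWdep c x y hxy, hμdep c x y hxy]
  have hscR : ∀ c x, sc c x ∈ R := fun c x => hpkR _
  have hscb : ∀ c x, ∀ d ∈ W c x ∪ At (μ c x), adj (sc c x) d := fun c x =>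
    hpkD _ ((Finset.card_union_le _ _).trans (Nat.add_le_add (hWcard c x) (hAt _ (hμ c x))))
  let bad : C → (I → X) → V → Prop := fun c x a =>
    (adj a (sc c x) ∨ a = sc c x) ∧ a ∉ Z c x
  have hbad : ∀ c x, pr (μ c x) (bad c x) ≤
      2 * θ + pr (μ c x) (fun a => ∀ Y ∈ F c x, a ∉ Y) := by
    intro c x
    have hsW : ∀ w ∈ W c x, adj (sc c x) w := fun w hw =>
      hscb c x w (Finset.mem_union_left _ hw)
    have hs1 : pr (μ c x) (fun a => a = sc c x) ≤ θ := by
      rw [pr_eq]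
      by_contra hcon
      push Not at hcon
      have : sc c x ∈ At (μ c x) := Finset.mem_filter.mpr ⟨mem_univ _, hcon.le⟩
      have h2 := hscb c x _ (Finset.mem_union_right _ this)
      exact has _ _ h2 h2
    have h1 : pr (μ c x) (bad c x) ≤ pr (μ c x) (fun a => a = sc c x) +
        pr (μ c x) (fun a => (∃ Y ∈ (F c x).filter (fun Y => ¬ isH (μ c x) Y),
          a ∈ Y ∧ adj a (sc c x)) ∨ ∀ Y ∈ F c x, a ∉ Y) := by
      refine pr_le_add (hμ c x).1 fun a _ ha => ?_
      obtain ⟨ha1, ha2⟩ := ha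
      rcases ha1 with ha1 | ha1
      · right
        by_cases h : ∃ Y ∈ F c x, a ∈ Y
        · left
          obtain ⟨Y, hY, haY⟩ := h
          refine ⟨Y, Finset.mem_filter.mpr ⟨hY, fun hH => ha2 ⟨Y, hY, hH, haY⟩⟩, haY, ha1⟩
        · right
          push Not at h
          exact h
      · left; exact ha1
    have h2 := pr_or_le (hμ c x).1 (fun a => ∃ Y ∈ (F c x).filter (fun Y => ¬ isH (μ c x) Y),
          a ∈ Y ∧ adj a (sc c x)) (fun a => ∀ Y ∈ F c x, a ∉ Y)
    have h3 := pr_exists_mem_le (hμ c x).1 ((F c x).filter (fun Y => ¬ isH (μ c x) Y))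
      (fun Y a => a ∈ Y ∧ adj a (sc c x))
    have h4 : ∑ Y ∈ (F c x).filter (fun Y => ¬ isH (μ c x) Y),
        pr (μ c x) (fun a => a ∈ Y ∧ adj a (sc c x)) ≤
        ∑ Y ∈ (F c x).filter (fun Y => ¬ isH (μ c x) Y), θ * pr (μ c x) (fun a => a ∈ Y) := by
      refine Finset.sum_le_sum fun Y hY => ?_
      rw [Finset.mem_filter] at hY
      have hB : ¬ KRich adj k (Bs (μ c x) Y) := by
        rcases (hFrem c x Y hY.1).2 with h | h
        · exact absurd h hY.2
        · exact h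
      exact hDB (μ c x) Y hY.2 hB (sc c x) (hscR c x) (hWmem c x _ hsW Y hY.1)
    rw [← Finset.mul_sum] at h4
    have h5 := mul_le_mul_of_nonneg_left
      (sum_mass_filter_le_one (hμ c x) (F c x) (hFdis c x) (fun Y => ¬ isH (μ c x) Y)) hθ.le
    linarith
  -- resampling
  have hexp : ∀ c, ex (prodW q) (fun x => pr (u (b x)) (bad c x)) ≤ 2 * θ + β := by
    intro c
    have h1 := hres I X q hq (E c) (fun x => pr (u (b x)) (bad c x))
    rw [← h1]
    have h2 : ∀ x y, bad c (mix (E c) x y) = bad c x := by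
      intro x y
      simp only [bad]
      rw [(hscdep c).mix, (hZdep c).mix]
    simp only [h2]
    have h3 : ∀ x, ex (prodW q) (fun y => pr (u (b (mix (E c) x y))) (bad c x)) =
        pr (μ c x) (bad c x) := fun x => (pr_mean q b u (E c) x (bad c x)).symm
    simp only [h3]
    calc ex (prodW q) (fun x => pr (μ c x) (bad c x)) ≤
        ex (prodW q) (fun x => 2 * θ + pr (μ c x) (fun a => ∀ Y ∈ F c x, a ∉ Y)) :=
          ex_mono' hP.1 fun x => hbad c x
      _ = 2 * θ + ex (prodW q) (fun x => pr (μ c x) (fun a => ∀ Y ∈ F c x, a ∉ Y)) := by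
          rw [ex_add, ex_const hP]
      _ ≤ 2 * θ + β := by
          have := hrem c
          simp only [μ]
          linarith
  have hmk : ∀ c, pr (prodW q) (fun x => γ / 2 ≤ pr (u (b x)) (bad c x)) ≤
      (2 * θ + β) * (2 / γ) := by
    intro c
    have h1 := markov (f := fun x => pr (u (b x)) (bad c x)) hP.1
      (fun x => pr_nonneg (hu _).1 _) (c := γ / 2) (by positivity)
    have h2 : ex (prodW q) (fun x => pr (u (b x)) (bad c x)) / (γ / 2) ≤
        (2 * θ + β) / (γ / 2) := by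
      have := hexp c
      gcongr
    calc _ ≤ _ := h1
      _ ≤ _ := h2
      _ = (2 * θ + β) * (2 / γ) := by
        field_simp
  refine ⟨Z, W, hZdep, hWdep, hWcard, hi, ?_⟩
  have hfin : pr (prodW q) (fun x => ¬ ∀ c, γ / 2 ≤ pr (u (b x)) (fun a => a ∈ Z c x)) ≤
      pr (prodW q) (fun x => ¬ ∀ s ∈ R, γ ≤ pr (u (b x)) (fun a => adj a s ∨ a = s)) +
      pr (prodW q) (fun x => ∃ c, γ / 2 ≤ pr (u (b x)) (bad c x)) := by
    refine pr_le_add hP.1 fun x _ hx => ?_
    by_contra hcon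
    push Not at hcon
    obtain ⟨hh, hb⟩ := hcon
    apply hx
    intro c
    have h1 := hh (sc c x) (hscR c x)
    have h2 : pr (u (b x)) (fun a => adj a (sc c x) ∨ a = sc c x) ≤
        pr (u (b x)) (fun a => a ∈ Z c x) + pr (u (b x)) (bad c x) := by
      refine pr_le_add (hu _).1 fun a _ ha => ?_
      by_cases hz : a ∈ Z c x
      · left; exact hz
      · right; exact ⟨ha, hz⟩
    have h3 := hb c
    linarith
  have h1 : pr (prodW q) (fun x => ∃ c, γ / 2 ≤ pr (u (b x)) (bad c x)) ≤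
      Fintype.card C * ((2 * θ + β) * (2 / γ)) := by
    refine (pr_exists_le hP.1 _).trans ?_
    calc ∑ c, pr (prodW q) (fun x => γ / 2 ≤ pr (u (b x)) (bad c x)) ≤
        ∑ _c : C, ((2 * θ + β) * (2 / γ)) := Finset.sum_le_sum fun c _ => hmk c
      _ = _ := by rw [Finset.sum_const, nsmul_eq_mul, Finset.card_univ]
  have h2 : pr (prodW q) (fun x => ¬ ∀ s ∈ R, γ ≤ pr (u (b x)) (fun a => adj a s ∨ a = s)) ≤
      τ₁ := by
    rw [pr_not hP]
    unfold HitAt at hhit
    linarith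
  rw [pr_not hP] at hfin
  linarith

end Pool.Agent.H14.DM
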